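import Pool.Agent.helper10.V3.SpecL

/-! Module INJ of project v3: injectivity of the iterates. -/

set_option autoImplicit false

open Complex Metric Set Filter Topology MeasureTheory MPS

noncomputable section

namespace V3S

/-- a map `x + lam v x`, `v` bounded on the larger ball, is injective on the smaller one. -/
theorem INJ_aux (F v : ℂ → ℂ) (lam : ℂ) (ρ C : ℝ) (_hC : 0 ≤ C)
    (hv : Differentiable ℂ v) (hb : ∀ x ∈ ball (0 : ℂ) (ρ + 1), ‖v x‖ ≤ C)
    (hF : ∀ x, F x = x + lam * v x) (hl : ‖lam‖ * (2 * C) < 1) : InjOn F (ball 0 ρ) := by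
  have hd : ∀ x ∈ ball (0 : ℂ) ρ, ‖deriv v x‖ ≤ 2 * C := by
    intro x hx
    have h := Complex.norm_deriv_le_of_forall_mem_sphere_norm_le (c := x) (R := 1 / 2) (C := C)
      (f := v) (by norm_num) hv.diffContOnCl (by
        intro z hz
        apply hb
        rw [mem_sphere, dist_eq_norm] at hz
        rw [mem_ball, dist_zero_right] at hx ⊢
        calc ‖z‖ = ‖(z - x) + x‖ := by rw [sub_add_cancel]
          _ ≤ ‖z - x‖ + ‖x‖ := norm_add_le _ _
          _ < ρ + 1 := by rw [hz]; linarith)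
    calc ‖deriv v x‖ ≤ C / (1 / 2) := h
      _ = 2 * C := by ring
  intro x hx y hy hxy
  have hL : ‖v y - v x‖ ≤ 2 * C * ‖y - x‖ :=
    (convex_ball (0 : ℂ) ρ).norm_image_sub_le_of_norm_deriv_le
      (fun z _ => hv.differentiableAt) hd hx hy
  rw [hF, hF] at hxy
  have h1 : y - x = -(lam * (v y - v x)) := by linear_combination -hxy
  have h2 : ‖y - x‖ ≤ ‖lam‖ * (2 * C) * ‖y - x‖ := by
    calc ‖y - x‖ = ‖lam‖ * ‖v y - v x‖ := by rw [h1, norm_neg, norm_mul]
      _ ≤ ‖lam‖ * (2 * C * ‖y - x‖) := mul_le_mul_of_nonneg_left hL (norm_nonneg _)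
      _ = ‖lam‖ * (2 * C) * ‖y - x‖ := by ring
  have h3 : ‖y - x‖ = 0 := by
    by_contra hne
    have hpos : 0 < ‖y - x‖ := lt_of_le_of_ne (norm_nonneg _) (Ne.symm hne)
    have h4 : ‖lam‖ * (2 * C) * ‖y - x‖ < 1 * ‖y - x‖ := mul_lt_mul_of_pos_right hl hpos
    linarith
  exact (sub_eq_zero.mp (norm_eq_zero.mp h3)).symm

theorem INJ (hVBD : VBD_stmt) (hBA1 : BA1_stmt) (hBA3 : BA3_stmt) (hKO0 : V3.KO0_stmt) :
    INJ_stmt := by
  intro n ra Cf D hD
  have hinj : ∀ ρ > (0 : ℝ), ∀ᶠ m in UF, ∀ j ≤ (D m).k, InjOn ((D m).F j) (ball 0 ρ) := by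
    intro ρ hρ
    obtain ⟨C, hC⟩ := hVBD n ra Cf D hD (ρ + 1) (by linarith)
    have hlam : Tendsto (fun m => ‖(D m).lam‖ * (2 * |C|)) UF (𝓝 0) := by
      have h0 : Tendsto (fun m => ‖(D m).lam‖) UF (𝓝 0) := by
        have := (hD.lim.mono_left UF_le).norm
        rwa [norm_zero] at this
      have := h0.mul_const (2 * |C|)
      rwa [zero_mul] at this
    have hev : ∀ᶠ m in UF, ‖(D m).lam‖ * (2 * |C|) < 1 := hlam.eventually (gt_mem_nhds one_pos)
    filter_upwards [hC, hev] with m hm hm1 j hj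
    obtain ⟨-, -, -, -, -, hadd, -, -, -, -, -, -, -, -, hFk, -⟩ := hBA1 n ra Cf (D m) (hD.good m)
    have hk : InjOn ((D m).F (D m).k) (ball 0 ρ) :=
      INJ_aux _ (D m).v (D m).lam ρ |C| (abs_nonneg _) (hBA3 n ra Cf (D m) (hD.good m)).1
        (fun x hx => le_trans (hm x hx) (le_abs_self C)) hFk hm1
    intro x hx y hy hxy
    apply hk hx hy
    have e : (D m).k = ((D m).k - j) + j := by omega
    have e2 : ∀ z, (D m).F (D m).k z = (D m).F ((D m).k - j) ((D m).F j z) := by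
      intro z
      rw [← hadd, ← e]
    rw [e2, e2, hxy]
  intro ρ hρ
  refine ⟨hinj ρ hρ, ?_⟩
  have hra : 0 < ra := (hD.good 0).ra0
  filter_upwards [hinj (2 * ra * ρ) (by positivity)] with m hm
  by_contra hlt
  push Not at hlt
  obtain ⟨hsg, -, -, hzx, -, -, hdiff, -, hder, -⟩ := hBA1 n ra Cf (D m) (hD.good m)
  obtain ⟨y, hy, hfy⟩ := (hD.good m).crit
  have hsn : 0 < ‖(D m).sg‖ := norm_pos_iff.mpr hsg
  have hx : (D m).xx y ∈ ball (0 : ℂ) (2 * ra * ρ) := by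
    rw [mem_ball, dist_zero_right]
    unfold Dat.xx
    rw [norm_div, div_lt_iff₀ hsn]
    calc ‖y - (D m).b 0‖ ≤ ‖y‖ + ‖(D m).b 0‖ := norm_sub_le _ _
      _ ≤ ra + ra := add_le_add hy ((hD.good m).hra 0)
      _ = 2 * ra * 1 := by ring
      _ < 2 * ra * (‖(D m).sg‖ * ρ) := mul_lt_mul_of_pos_left hlt (by positivity)
      _ = 2 * ra * ρ * ‖(D m).sg‖ := by ring
  have h1 : 1 ≤ (D m).k := le_trans (by norm_num) (hD.good m).hk
  apply hKO0 ((D m).F 1) (ball 0 (2 * ra * ρ)) isOpen_ball (hdiff 1).differentiableOn (hm 1 h1) _ hx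
  rw [hder, hzx, Function.iterate_one]
  have : deriv (fun z => (D m).f.eval z) y = PPS.fd (D m).f y := by
    rw [Polynomial.deriv]; rfl
  rw [this, hfy]

end V3S
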