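import Pool.Agent.helper36.V3.SpecW

/-! Module LGN of project v3: logarithms near `1`. -/

set_option autoImplicit false

open Complex Metric Set Filter Topology MeasureTheory

noncomputable section

namespace V3W

theorem LGN : LGN_stmt := by
  refine ⟨?_, ?_, ?_⟩
  · intro ρ hρ hρ1
    have hne : ρ ≠ 0 := by
      intro h
      rw [h, norm_zero] at hρ
      linarith
    have e : 1 + (ρ - 1) = ρ := by ring
    refine ⟨Complex.log ρ, Complex.exp_log hne, Complex.log_re ρ, ?_, ?_⟩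
    · have h := Complex.norm_log_one_add_half_le_self (z := ρ - 1) hρ1
      rw [e] at h
      nlinarith [norm_nonneg (ρ - 1)]
    · have h := Complex.norm_log_one_add_sub_self_le (z := ρ - 1) (by linarith)
      rw [e] at h
      have h0 := norm_nonneg (ρ - 1)
      have h1 : (1 - ‖ρ - 1‖)⁻¹ ≤ 2 := by
        rw [inv_le_comm₀ (by linarith) (by norm_num)]
        linarith
      have h2 : ‖ρ - 1‖ ^ 2 * (1 - ‖ρ - 1‖)⁻¹ / 2 ≤ ‖ρ - 1‖ / 2 := by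
        have h3 : ‖ρ - 1‖ ^ 2 * (1 - ‖ρ - 1‖)⁻¹ ≤ ‖ρ - 1‖ ^ 2 * 2 :=
          mul_le_mul_of_nonneg_left h1 (by positivity)
        nlinarith
      have h4 : ‖ρ - 1‖ ≤ ‖Complex.log ρ‖ + ‖Complex.log ρ - (ρ - 1)‖ := by
        calc ‖ρ - 1‖ = ‖Complex.log ρ - (Complex.log ρ - (ρ - 1))‖ := by congr 1; ring
          _ ≤ _ := norm_sub_le _ _
      linarith
  · intro ρ hρ
    refine ⟨Real.log_pos hρ, ?_⟩
    have h1 := Real.log_le_sub_one_of_pos (lt_trans one_pos hρ)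
    have h2 : ‖ρ‖ - ‖(1 : ℂ)‖ ≤ ‖ρ - 1‖ := norm_sub_norm_le _ _
    rw [norm_one] at h2
    linarith
  · intro ρ hρ hl
    have hpos : 0 < ‖ρ‖ := lt_trans one_pos hρ
    have hlog := Real.log_pos hρ
    have h1 := Real.abs_exp_sub_one_le (x := Real.log ‖ρ‖) (by rw [abs_of_pos hlog]; exact hl)
    rw [Real.exp_log hpos, abs_of_pos hlog, abs_of_pos (by linarith)] at h1
    have h2 : ‖ρ - ρ / ‖ρ‖‖ = ‖ρ‖ - 1 := by
      have hc : ((‖ρ‖ : ℝ) : ℂ) ≠ 0 := by exact_mod_cast hpos.ne'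
      have e : ρ - ρ / (‖ρ‖ : ℂ) = ρ * (((1 - ‖ρ‖⁻¹ : ℝ)) : ℂ) := by
        push_cast
        field_simp
      rw [e, norm_mul, Complex.norm_real, Real.norm_eq_abs, abs_of_nonneg, mul_sub, mul_one,
        mul_inv_cancel₀ hpos.ne']
      have : ‖ρ‖⁻¹ ≤ 1 := inv_le_one_of_one_le₀ hρ.le
      linarith
    have h3 : ‖ρ - 1‖ ≤ ‖ρ - ρ / ‖ρ‖‖ + ‖ρ / ‖ρ‖ - 1‖ := by
      calc ‖ρ - 1‖ = ‖(ρ - ρ / ‖ρ‖) + (ρ / ‖ρ‖ - 1)‖ := by congr 1; ring
        _ ≤ _ := norm_add_le _ _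
    linarith

end V3W
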